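import Mathlib
import Pool.Agent.L5helper16.LG.Defs

/-! Project LG (helper16), lemma A1: good scales (helper48). -/

set_option autoImplicit false

namespace Pool.Agent.L5helper48.LG

open Filter Topology

theorem a1 : Pool.Agent.L5helper16.LG.St_A1 := by
  intro w hw hlow hlim η hη
  by_contra hcon
  rw [Filter.not_frequently] at hcon
  have h1 : ∀ᶠ n : ℕ in atTop, Real.log (w n) / Real.log n < 1 :=
    hlim.eventually (gt_mem_nhds (by norm_num))
  have hlog : Tendsto (fun n : ℕ => Real.log (n : ℝ)) atTop atTop :=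
    Real.tendsto_log_atTop.comp tendsto_natCast_atTop_atTop
  obtain ⟨N, hN⟩ := (hcon.and (h1.and (hlow.and (hlog.eventually_ge_atTop 2)))).exists_forall_of_atTop
  set x₀ : ℕ := max N 1 with hx₀
  have hx₀1 : 1 ≤ x₀ := le_max_right _ _
  have hge : ∀ j : ℕ, N ≤ 4 ^ j * x₀ := fun j => by
    have h2 : 1 ≤ 4 ^ j := Nat.one_le_pow _ _ (by norm_num)
    calc N ≤ x₀ := le_max_left _ _
      _ = 1 * x₀ := (one_mul _).symm
      _ ≤ 4 ^ j * x₀ := Nat.mul_le_mul_right _ h2
  have hrec : ∀ j : ℕ, (1 + η) ^ j ≤ Real.log (w (4 ^ j * x₀)) := by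
    intro j
    induction j with
    | zero =>
      simp only [pow_zero, one_mul]
      obtain ⟨-, -, h3, h4⟩ := hN x₀ (by simpa using hge 0)
      have h5 : (Real.exp 1) ≤ w x₀ := by
        refine le_trans ?_ h3
        have h6 : (2 : ℝ) ^ 6 ≤ Real.log (x₀ : ℝ) ^ 6 := pow_le_pow_left₀ (by norm_num) h4 6
        have h7 := Real.exp_one_lt_d9
        linarith [show (2 : ℝ) ^ 6 = 64 by norm_num]
      have := Real.log_le_log (Real.exp_pos 1) h5
      rwa [Real.log_exp] at this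
    | succ j ih =>
      have h3 := (hN (4 ^ j * x₀) (hge j)).1
      have e : 4 ^ (j + 1) * x₀ = 4 * (4 ^ j * x₀) := by ring
      rw [e]
      push Not at h3
      calc (1 + η) ^ (j + 1) = (1 + η) * (1 + η) ^ j := by ring
        _ ≤ (1 + η) * Real.log (w (4 ^ j * x₀)) := mul_le_mul_of_nonneg_left ih (by linarith)
        _ ≤ _ := h3.le
  have hup : ∀ j : ℕ, (1 + η) ^ j < j * Real.log 4 + Real.log x₀ := by
    intro j
    obtain ⟨-, h3, -, h4⟩ := hN (4 ^ j * x₀) (hge j)
    have h5 : 0 < Real.log ((4 ^ j * x₀ : ℕ) : ℝ) := by linarith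
    rw [div_lt_one h5] at h3
    have h6 : Real.log ((4 ^ j * x₀ : ℕ) : ℝ) = j * Real.log 4 + Real.log x₀ := by
      push_cast
      rw [Real.log_mul (by positivity) (by positivity), Real.log_pow]
    rw [← h6]
    exact (hrec j).trans_lt h3
  have t1 : Tendsto (fun j : ℕ => (j : ℝ) ^ 1 / (1 + η) ^ j) atTop (𝓝 0) :=
    tendsto_pow_const_div_const_pow_of_one_lt 1 (by linarith)
  have t0 : Tendsto (fun j : ℕ => (j : ℝ) ^ 0 / (1 + η) ^ j) atTop (𝓝 0) :=
    tendsto_pow_const_div_const_pow_of_one_lt 0 (by linarith)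
  have t2 := (t1.const_mul (Real.log 4)).add (t0.const_mul (Real.log x₀))
  simp only [mul_zero, add_zero] at t2
  obtain ⟨j, hj⟩ := (t2.eventually (gt_mem_nhds (show (0 : ℝ) < 1 by norm_num))).exists
  have hpos : (0 : ℝ) < (1 + η) ^ j := by positivity
  have h8 := hup j
  have h9 : Real.log 4 * ((j : ℝ) ^ 1 / (1 + η) ^ j) + Real.log x₀ * ((j : ℝ) ^ 0 / (1 + η) ^ j) =
      (j * Real.log 4 + Real.log x₀) / (1 + η) ^ j := by
    field_simp
  rw [h9, div_lt_one hpos] at hj
  linarith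

end Pool.Agent.L5helper48.LG
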