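import Mathlib
import Pool.Agent.L5helper16.LG.Defs
import Pool.Agent.Helper923.PNT

/-! Project LG (helper16), lemma A2: integers up to `c log² x` without prime factors up to `ρ log x` (helper48). -/

set_option autoImplicit false

namespace Pool.Agent.L5helper48.LG

open Filter Topology Finset

private lemma pc_eq (n : ℕ) : Nat.primeCounting n = #((range (n + 1)).filter Nat.Prime) := by
  rw [Nat.primeCounting, Nat.primeCounting', Nat.count_eq_card_filter_range]

open Classical in
private lemma comb (h z : ℕ) (hz : h < (z + 1) ^ 3) :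
    #((Icc 1 h).filter fun j : ℕ => ∀ p : ℕ, p.Prime → p ≤ z → ¬ p ∣ j) ≤
      1 + Nat.primeCounting h + Nat.primeCounting (h / (z + 1)) ^ 2 := by
  set P := (range (h / (z + 1) + 1)).filter Nat.Prime with hP
  have hsub : ((Icc 1 h).filter fun j : ℕ => ∀ p : ℕ, p.Prime → p ≤ z → ¬ p ∣ j) ⊆
      ({1} ∪ (range (h + 1)).filter Nat.Prime) ∪ (P ×ˢ P).image (fun q => q.1 * q.2) := by
    intro j hj
    rw [mem_filter, mem_Icc] at hj
    obtain ⟨⟨h1, h2⟩, h3⟩ := hj
    by_cases hj1 : j = 1
    · simp [hj1]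
    by_cases hjp : j.Prime
    · rw [mem_union, mem_union]
      left; right
      rw [mem_filter, mem_range]
      exact ⟨by omega, hjp⟩
    rw [mem_union]
    right
    set p := j.minFac with hp
    have hpp : p.Prime := Nat.minFac_prime hj1
    have hpj : p ∣ j := Nat.minFac_dvd j
    have hpz : z + 1 ≤ p := by
      by_contra hc
      exact h3 p hpp (by omega) hpj
    obtain ⟨m, hm⟩ := hpj
    have hm1 : m ≠ 1 := by
      rintro rfl
      apply hjp
      rw [hm, mul_one]
      exact hpp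
    have hm0 : m ≠ 0 := by
      rintro rfl
      omega
    set q := m.minFac with hq
    have hqp : q.Prime := Nat.minFac_prime hm1
    have hqm : q ∣ m := Nat.minFac_dvd m
    have hqz : z + 1 ≤ q := by
      by_contra hc
      exact h3 q hqp (by omega) (hqm.trans ⟨p, by rw [hm]; ring⟩)
    obtain ⟨n, hn⟩ := hqm
    have hn1 : n = 1 := by
      by_contra hc
      have hn0 : n ≠ 0 := by
        rintro rfl
        exact hm0 (by rw [hn]; ring)
      have hr : n.minFac.Prime := Nat.minFac_prime hc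
      have hrn : n.minFac ∣ n := Nat.minFac_dvd n
      have hrz : z + 1 ≤ n.minFac := by
        by_contra hc'
        refine h3 _ hr (by omega) (hrn.trans ⟨p * q, ?_⟩)
        rw [hm, hn]; ring
      have hrn' : n.minFac ≤ n := Nat.le_of_dvd (Nat.pos_of_ne_zero hn0) hrn
      have h4 : (z + 1) ^ 3 ≤ j := by
        calc (z + 1) ^ 3 = (z + 1) * ((z + 1) * (z + 1)) := by ring
          _ ≤ p * (q * n) := Nat.mul_le_mul hpz (Nat.mul_le_mul hqz (hrz.trans hrn'))
          _ = j := by rw [hm]; conv_rhs => rw [hn]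
      omega
    have hmp : m.Prime := by
      rw [hn, hn1, mul_one]
      exact hqp
    have hmz : z + 1 ≤ m := by
      rw [hn, hn1, mul_one]
      exact hqz
    rw [mem_image]
    refine ⟨(p, m), ?_, hm.symm⟩
    rw [mem_product]
    simp only [hP, mem_filter, mem_range]
    refine ⟨⟨?_, hpp⟩, ?_, hmp⟩
    · rw [Nat.lt_succ_iff, Nat.le_div_iff_mul_le (by omega)]
      calc p * (z + 1) ≤ p * m := Nat.mul_le_mul_left _ hmz
        _ = j := hm.symm
        _ ≤ h := h2
    · rw [Nat.lt_succ_iff, Nat.le_div_iff_mul_le (by omega)]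
      calc m * (z + 1) ≤ m * p := Nat.mul_le_mul_left _ hpz
        _ = j := by rw [hm]; ring
        _ ≤ h := h2
  refine (card_le_card hsub).trans ((card_union_le _ _).trans ?_)
  refine add_le_add ((card_union_le _ _).trans ?_) (card_image_le.trans ?_)
  · rw [card_singleton, pc_eq]
  · rw [card_product, pc_eq, sq]

private lemma asy (c ρ : ℝ) (hc : 0 < c) (hρ : 0 < ρ) :
    Tendsto (fun t : ℝ => (1 + (Nat.primeCounting ⌊c * (t + Real.log 4) ^ 2⌋₊ : ℝ) +
      (Nat.primeCounting ⌊c * (t + Real.log 4) ^ 2 / (ρ * t)⌋₊ : ℝ) ^ 2) / (c * t ^ 2 / (2 * Real.log t)))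
      atTop (𝓝 1) ∧
    ∀ᶠ t : ℝ in atTop, c * (t + Real.log 4) ^ 2 < (ρ * t) ^ 3 := by
  have hlog4 : 0 < Real.log 4 := Real.log_pos (by norm_num)
  set H : ℝ → ℝ := fun t => c * (t + Real.log 4) ^ 2 with hH
  set G : ℝ → ℝ := fun t => c * (t + Real.log 4) ^ 2 / (ρ * t) with hG
  have hi : Tendsto (fun t : ℝ => Real.log 4 / t) atTop (𝓝 0) := tendsto_const_nhds.div_atTop tendsto_id
  have hH1 : Tendsto (fun t : ℝ => H t / t ^ 2) atTop (𝓝 c) := by
    have h : Tendsto (fun t : ℝ => c * (1 + Real.log 4 / t) ^ 2) atTop (𝓝 (c * (1 + 0) ^ 2)) :=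
      ((hi.const_add 1).pow 2).const_mul c
    simp only [add_zero, one_pow, mul_one] at h
    refine h.congr' ?_
    filter_upwards [eventually_gt_atTop 0] with t ht
    simp only [hH]
    field_simp
  have hG1 : Tendsto (fun t : ℝ => G t / t) atTop (𝓝 (c / ρ)) := by
    refine (hH1.div_const ρ).congr' ?_
    filter_upwards [eventually_gt_atTop 0] with t ht
    simp only [hH, hG]
    field_simp
  have hsq : Tendsto (fun t : ℝ => t ^ 2) atTop atTop := tendsto_pow_atTop (by norm_num)
  have hHT : Tendsto H atTop atTop := by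
    refine (hH1.pos_mul_atTop hc hsq).congr' ?_
    filter_upwards [eventually_gt_atTop 0] with t ht
    field_simp
  have hGT : Tendsto G atTop atTop := by
    refine (hG1.pos_mul_atTop (by positivity) tendsto_id).congr' ?_
    filter_upwards [eventually_gt_atTop 0] with t ht
    simp only [id]
    field_simp
  have hlt := Real.tendsto_log_atTop
  -- logarithms
  have hlH : Tendsto (fun t : ℝ => Real.log (H t) / Real.log t) atTop (𝓝 2) := by
    have h := (((Real.continuousAt_log hc.ne').tendsto.comp hH1).div_atTop hlt).add_const 2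
    rw [zero_add] at h
    refine h.congr' ?_
    filter_upwards [eventually_gt_atTop 1, hHT.eventually_gt_atTop 0] with t ht hHt
    have hl : Real.log t ≠ 0 := (Real.log_pos ht).ne'
    simp only [Function.comp]
    rw [Real.log_div hHt.ne' (by positivity), Real.log_pow]
    field_simp
    push_cast
    ring
  have hlG : Tendsto (fun t : ℝ => Real.log (G t) / Real.log t) atTop (𝓝 1) := by
    have h := (((Real.continuousAt_log (show c / ρ ≠ 0 by positivity)).tendsto.comp hG1).div_atTop hlt).add_const 1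
    rw [zero_add] at h
    refine h.congr' ?_
    filter_upwards [eventually_gt_atTop 1, hGT.eventually_gt_atTop 0] with t ht hGt
    have hl : Real.log t ≠ 0 := (Real.log_pos ht).ne'
    simp only [Function.comp]
    rw [Real.log_div hGt.ne' (by positivity)]
    field_simp
    ring
  have hlH' := hlH.inv₀ (by norm_num)
  have hlG' := hlG.inv₀ (by norm_num)
  have hlGi : Tendsto (fun t : ℝ => (Real.log (G t))⁻¹) atTop (𝓝 0) :=
    tendsto_inv_atTop_zero.comp (hlt.comp hGT)
  have hpH := Pool.Agent.Helper923.PNT.pi_tendsto.comp hHT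
  have hpG := Pool.Agent.Helper923.PNT.pi_tendsto.comp hGT
  have hl0 : Tendsto (fun t : ℝ => Real.log t / t * t⁻¹) atTop (𝓝 0) := by
    have h := (Real.tendsto_pow_log_div_mul_add_atTop 1 0 1 one_ne_zero).mul tendsto_inv_atTop_zero
    simpa using h
  have key := ((hl0.const_mul (2 / c)).add (((hpH.mul hH1).mul_const (2 / c)).mul hlH')).add
    ((((hpG.pow 2).mul (hG1.pow 2)).mul_const (2 / c)).mul (hlG'.mul hlGi))
  refine ⟨?_, ?_⟩
  · have e : 2 / c * 0 + 1 * c * (2 / c) * 2⁻¹ + 1 ^ 2 * (c / ρ) ^ 2 * (2 / c) * (1⁻¹ * 0) = (1 : ℝ) := by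
      field_simp
      ring
    rw [e] at key
    refine key.congr' ?_
    filter_upwards [eventually_gt_atTop 1, hHT.eventually_gt_atTop 1, hGT.eventually_gt_atTop 1] with t ht hHt hGt
    have hl : Real.log t ≠ 0 := (Real.log_pos ht).ne'
    have hl2 : Real.log (H t) ≠ 0 := (Real.log_pos hHt).ne'
    have hl3 : Real.log (G t) ≠ 0 := (Real.log_pos hGt).ne'
    have hH0 : H t ≠ 0 := by linarith
    have hG0 : G t ≠ 0 := by linarith
    have ht0 : t ≠ 0 := by linarith
    simp only [Function.comp]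
    have eH : c * (t + Real.log 4) ^ 2 = H t := rfl
    have eG : H t / (ρ * t) = G t := rfl
    rw [eG]
    generalize H t = h at *
    generalize G t = g at *
    field_simp
    rw [eH]
  · have h3 : Tendsto (fun t : ℝ => ρ ^ 3 * t) atTop atTop := tendsto_id.const_mul_atTop (by positivity)
    filter_upwards [hH1.eventually (gt_mem_nhds (show c < c + 1 by linarith)), h3.eventually_gt_atTop (c + 1),
      eventually_gt_atTop 0] with t h1 h2 ht
    have h4 : H t / t ^ 2 < ρ ^ 3 * t := h1.trans h2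
    rw [div_lt_iff₀ (by positivity)] at h4
    calc c * (t + Real.log 4) ^ 2 = H t := rfl
      _ < ρ ^ 3 * t * t ^ 2 := h4
      _ = (ρ * t) ^ 3 := by ring

open Classical in
theorem a2 : Pool.Agent.L5helper16.LG.St_A2 := by
  intro c ρ η hc hρ hη
  obtain ⟨h1, h2⟩ := asy c ρ hc hρ
  have hlog : Tendsto (fun n : ℕ => Real.log (n : ℝ)) atTop atTop :=
    Real.tendsto_log_atTop.comp tendsto_natCast_atTop_atTop
  filter_upwards [hlog.eventually (h1.eventually (gt_mem_nhds (show (1 : ℝ) < 1 + η by linarith))),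
    hlog.eventually h2, hlog.eventually (eventually_gt_atTop 1), eventually_ge_atTop 1] with x h3 h4 h5 hx
  have hx0 : (0 : ℝ) < x := by exact_mod_cast hx
  have e1 : Real.log (4 * x) = Real.log x + Real.log 4 := by
    rw [Real.log_mul (by norm_num) hx0.ne']
    ring
  rw [e1]
  set t := Real.log (x : ℝ) with ht
  have ht0 : 0 < t := by linarith
  have hlt : 0 < Real.log t := Real.log_pos h5
  have hz : ρ * t < (⌊ρ * t⌋₊ : ℝ) + 1 := Nat.lt_floor_add_one _
  have hHn : 0 ≤ c * (t + Real.log 4) ^ 2 := by positivity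
  have hcomb := comb ⌊c * (t + Real.log 4) ^ 2⌋₊ ⌊ρ * t⌋₊ (by
    have h6 : ((⌊c * (t + Real.log 4) ^ 2⌋₊ : ℕ) : ℝ) < (((⌊ρ * t⌋₊ + 1) ^ 3 : ℕ) : ℝ) := by
      push_cast
      calc ((⌊c * (t + Real.log 4) ^ 2⌋₊ : ℕ) : ℝ) ≤ c * (t + Real.log 4) ^ 2 := Nat.floor_le hHn
        _ < (ρ * t) ^ 3 := h4
        _ ≤ _ := pow_le_pow_left₀ (by positivity) hz.le 3
    exact_mod_cast h6)
  have hG : ⌊c * (t + Real.log 4) ^ 2⌋₊ / (⌊ρ * t⌋₊ + 1) ≤ ⌊c * (t + Real.log 4) ^ 2 / (ρ * t)⌋₊ := by
    apply Nat.le_floor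
    refine Nat.cast_div_le.trans ?_
    push_cast
    exact div_le_div₀ hHn (Nat.floor_le hHn) (by positivity) hz.le
  have hmono := Nat.monotone_primeCounting hG
  rw [div_lt_iff₀ (by positivity)] at h3
  refine le_trans ?_ h3.le
  have h7 : (#((Icc 1 ⌊c * (t + Real.log 4) ^ 2⌋₊).filter fun j : ℕ => ∀ p : ℕ, p.Prime → p ≤ ⌊ρ * t⌋₊ → ¬ p ∣ j)) ≤
      1 + Nat.primeCounting ⌊c * (t + Real.log 4) ^ 2⌋₊ +
        Nat.primeCounting ⌊c * (t + Real.log 4) ^ 2 / (ρ * t)⌋₊ ^ 2 :=
    hcomb.trans (by gcongr)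
  exact_mod_cast h7

end Pool.Agent.L5helper48.LG
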